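import Mathlib
import Pool.Agent.H90.P.Ns
import Pool.Agent.H90.P.Helper386.D5V.Helper386_FF_Place

/-!
Base points of canonical systems: definitions.
-/

set_option autoImplicit false

open FF Pool.Agent.W602.GT

namespace Pool.Agent.H614.BF

section

variable {K : Type} [Field K] [Algebra ℂ K] {n N : ℕ}

/-- `q` is a point, with coordinates in `κ`, of the projective variety with generic point `x` -/
def IsPoint {ι : Type} (x : ι → K) {κ : Type} [Field κ] [Algebra ℂ κ] (q : ι → κ) : Prop :=
  q ≠ 0 ∧ ∀ (e : ℕ) (F : MvPolynomial ι ℂ), F.IsHomogeneous e →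
    MvPolynomial.aeval x F = 0 → MvPolynomial.aeval q F = 0

/-- the closure of the centre of `P` contains `q` -/
def Through (P : Place ℂ K) (x : Fin N → K) {κ : Type} [Field κ] [Algebra ℂ κ]
    (q : Fin N → κ) : Prop :=
  ∀ (e : ℕ) (B : MvPolynomial (Fin N) ℂ), B.IsHomogeneous e → MvPolynomial.aeval q B ≠ 0 →
    ∀ i, x i ≠ 0 → P.ord (MvPolynomial.aeval x B) ≤ e * P.ord (x i)

end

section

variable {K L : Type} [Field K] [Algebra ℂ K] [Field L] [Algebra ℂ L] [Algebra L K] {N M : ℕ}

end

/-- forms at a multiple of a point -/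
theorem smul_form {κ ι : Type} [Field κ] [Algebra ℂ κ] [Fintype ι] {F : MvPolynomial ι ℂ} {e : ℕ}
    (hF : F.IsHomogeneous e) (c : κ) (y : ι → κ) :
    MvPolynomial.aeval (fun l => c * y l) F = c ^ e * MvPolynomial.aeval y F := by
  classical
  rw [MvPolynomial.aeval_def, MvPolynomial.eval₂_eq', MvPolynomial.aeval_def,
    MvPolynomial.eval₂_eq', Finset.mul_sum]
  refine Finset.sum_congr rfl fun a ha => ?_
  have h1 : ∑ i, a i = e := by
    have h2 := hF (MvPolynomial.mem_support_iff.1 ha)
    rw [← h2, Finsupp.weight_apply, Finsupp.sum_fintype _ _ fun i => by simp]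
    simp
  simp only [mul_pow, Finset.prod_mul_distrib]
  rw [Finset.prod_pow_eq_pow_sum, h1]
  ring

end Pool.Agent.H614.BF
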