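import Mathlib
import Pool.Agent.H90.P.Ns
import Pool.Agent.H90.P.Helper386.D5V.Helper386_FF_Place
import Pool.Agent.H90.P.W602.GT.Defs
import Pool.Agent.H90.P.W603.LV.Loc
import Pool.Agent.H90.P.W603.LV.Ord
import Pool.Agent.H90.P.Y172.Gauss
import Pool.Agent.H90.P.Y988.NT.Res

/-!
The forms `∑ ± x_0 dx_1 ∧ ... ∧ dx_n`, and their expansion.
-/

set_option autoImplicit false
set_option linter.unusedSectionVars false
set_option linter.overlappingInstances false

open FF Module Pool.Agent.W602.GT Pool.Agent.W603.LV Pool.Agent.W619.PQ Pool.Agent.Y172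
open Pool.Agent.Y184.NT

namespace Pool.Agent.H614.BF

section

variable {K : Type} [Field K] [Algebra ℂ K] {n N : ℕ}

/-- the determinant with the rows `h` and `D i h` -/
noncomputable def wr (h : Fin (n + 1) → K) (D : Fin n → Derivation ℂ K K) : K :=
  (Matrix.of fun a b => (Fin.cons (h b) (fun j => D j (h b)) : Fin (n + 1) → K) a :
    Matrix (Fin (n + 1)) (Fin (n + 1)) K).det

theorem wr_smul (c : K) (h : Fin (n + 1) → K) (D : Fin n → Derivation ℂ K K) :
    wr (fun b => c * h b) D = c ^ (n + 1) * wr h D := by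
  classical
  obtain ⟨T, hT⟩ : ∃ T : Matrix (Fin (n + 1)) (Fin (n + 1)) K, T = Matrix.of fun a b =>
      (Fin.cons (Fin.cons c fun _ => 0 : Fin (n + 1) → K)
        (fun j => (Fin.cons (D j c) fun j' => if j' = j then c else 0 : Fin (n + 1) → K)) :
        Fin (n + 1) → Fin (n + 1) → K) a b := ⟨_, rfl⟩
  have h1 : (Matrix.of fun a b => (Fin.cons (c * h b) (fun j => D j (c * h b)) :
      Fin (n + 1) → K) a : Matrix (Fin (n + 1)) (Fin (n + 1)) K) =
      T * Matrix.of fun a b => (Fin.cons (h b) (fun j => D j (h b)) : Fin (n + 1) → K) a := by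
    ext a b
    rw [Matrix.mul_apply, Fin.sum_univ_succ, hT]
    refine Fin.cases ?_ (fun j => ?_) a
    · simp [Matrix.of_apply]
    · simp only [Matrix.of_apply, Fin.cons_succ, Fin.cons_zero, Derivation.leibniz, smul_eq_mul]
      rw [Finset.sum_eq_single j]
      · rw [if_pos rfl]
        ring
      · intro i _ hi
        rw [if_neg hi, zero_mul]
      · intro h
        exact absurd (Finset.mem_univ _) h
  have h2 : T.det = c ^ (n + 1) := by
    rw [Matrix.det_of_isLowerTriangular]
    · rw [Fin.prod_univ_succ, hT]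
      simp [Matrix.of_apply, pow_succ, mul_comm]
    · intro a b hab
      rw [hT]
      have hab' : a < b := hab
      revert hab'
      refine Fin.cases ?_ (fun j => ?_) a
      · refine Fin.cases ?_ (fun j' => ?_) b
        · intro h
          exact absurd h (lt_irrefl _)
        · intro _
          simp [Matrix.of_apply]
      · refine Fin.cases ?_ (fun j' => ?_) b
        · intro h
          exact absurd h (by simp)
        · intro h
          have h3 : j' ≠ j := by
            rintro rfl
            exact lt_irrefl _ h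
          simp [Matrix.of_apply, h3]
  unfold wr
  rw [h1, Matrix.det_mul, h2]

theorem wr_pluri (h : Fin (n + 1) → K) : IsPluri 1 (wr h) := by
  classical
  intro A D
  obtain ⟨T, hT⟩ : ∃ T : Matrix (Fin (n + 1)) (Fin (n + 1)) K, T = Matrix.of fun a b =>
      (Fin.cons (Fin.cons 1 fun _ => 0 : Fin (n + 1) → K)
        (fun j => (Fin.cons 0 fun j' => A j j' : Fin (n + 1) → K)) :
        Fin (n + 1) → Fin (n + 1) → K) a b := ⟨_, rfl⟩
  have h1 : (Matrix.of fun a b => (Fin.cons (h b) (fun j => (∑ j', A j j' • D j') (h b)) :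
      Fin (n + 1) → K) a : Matrix (Fin (n + 1)) (Fin (n + 1)) K) =
      T * Matrix.of fun a b => (Fin.cons (h b) (fun j => D j (h b)) : Fin (n + 1) → K) a := by
    ext a b
    rw [Matrix.mul_apply, Fin.sum_univ_succ, hT]
    refine Fin.cases ?_ (fun j => ?_) a
    · simp [Matrix.of_apply]
    · simp only [Matrix.of_apply, Fin.cons_succ, Fin.cons_zero, zero_mul, zero_add]
      rw [sum_smul_apply]
  have h2 : T.det = A.det := by
    rw [Matrix.det_succ_row_zero, Fin.sum_univ_succ, hT]
    simp only [Matrix.of_apply, Fin.cons_zero, Fin.cons_succ, mul_zero, zero_mul,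
      Finset.sum_const_zero, add_zero, Fin.val_zero, pow_zero, one_mul]
    congr 1
  unfold wr
  rw [h1, Matrix.det_mul, h2, pow_one]

/-- `dt_1 ∧ ... ∧ dt_n` as such a determinant -/
theorem wr_one (t : Fin n → K) (D : Fin n → Derivation ℂ K K) :
    wr (Fin.cons 1 t) D = (Matrix.of fun i j => D i (t j) : Matrix (Fin n) (Fin n) K).det := by
  classical
  unfold wr
  rw [Matrix.det_succ_column_zero, Fin.sum_univ_succ]
  simp only [Matrix.of_apply, Fin.cons_zero, Fin.cons_succ, Fin.val_zero, pow_zero, one_mul,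
    Derivation.map_one_eq_zero, mul_zero, zero_mul, Finset.sum_const_zero, add_zero]
  congr 1

/-- regularity -/
theorem wr_reg (Q : Place ℂ K) {h : Fin (n + 1) → K} (hh : ∀ b, Q.Reg (h b))
    {D : Fin n → Derivation ℂ K K} (hD : ∀ i, DerReg Q (D i)) : Q.Reg (wr h D) := by
  classical
  have h9 : Ge Q 0 (wr h D) := by
    unfold wr
    refine ge_det Q _ _ (fun _ _ => 0) (fun a b => ?_) fun σ => by simp
    refine Fin.cases ?_ (fun j => ?_) a
    · exact hh b
    · exact hD j _ (hh b)
  exact h9

/-- the order of the forms -/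
theorem wr_ord (Q : Place ℂ K) {x : Fin N → K} (hx : ∃ j, x j ≠ 0) :
    ∃ i, x i ≠ 0 ∧ (∀ j, x j ≠ 0 → Q.ord (x i) ≤ Q.ord (x j)) ∧
      ∀ (I : Fin (n + 1) → Fin N) (D : Fin n → Derivation ℂ K K), (∀ i, DerReg Q (D i)) →
        Ge Q ((n + 1) * Q.ord (x i)) (wr (fun b => x (I b)) D) := by
  classical
  obtain ⟨j, hj⟩ := hx
  have hne : (Finset.univ.filter fun i : Fin N => x i ≠ 0).Nonempty :=
    ⟨j, Finset.mem_filter.2 ⟨Finset.mem_univ _, hj⟩⟩
  obtain ⟨i, hi, hmin⟩ := Finset.exists_min_image _ (fun i => Q.ord (x i)) hne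
  have hi0 : x i ≠ 0 := (Finset.mem_filter.1 hi).2
  have hmin' : ∀ j, x j ≠ 0 → Q.ord (x i) ≤ Q.ord (x j) := fun j hj =>
    hmin j (Finset.mem_filter.2 ⟨Finset.mem_univ _, hj⟩)
  refine ⟨i, hi0, hmin', fun I D hD => ?_⟩
  have h1 : (fun b => x (I b)) = fun b => x i * (x (I b) / x i) := by
    funext b
    rw [mul_div_cancel₀ _ hi0]
  rw [h1, wr_smul]
  have h2 : Ge Q 0 (wr (fun b => x (I b) / x i) D) := by
    refine wr_reg Q (fun b => ?_) hD
    by_cases hb : x (I b) = 0
    · left
      rw [hb, zero_div]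
    · right
      rw [Q.ord_div hb hi0]
      have := hmin' _ hb
      omega
  have h3 : Ge Q ((n + 1) * Q.ord (x i)) (x i ^ (n + 1)) := by
    right
    rw [Q.ord_pow]
    push_cast
    exact le_rfl
  have h4 := h3.mul h2
  rwa [add_zero] at h4

/-- the expansion of the form for functions which are forms in `x` -/
theorem wr_expand (x : Fin N → K) {d : ℕ} (F : Fin (n + 1) → MvPolynomial (Fin N) ℂ)
    (hF : ∀ b, (F b).IsHomogeneous (d + 1)) :
    ∃ A : (Fin (n + 1) → Fin N) → MvPolynomial (Fin N) ℂ,
      (∀ I, (A I).IsHomogeneous ((n + 1) * d)) ∧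
      ∀ D : Fin n → Derivation ℂ K K,
        ((d : K) + 1) * wr (fun b => MvPolynomial.aeval x (F b)) D =
          ∑ I : Fin (n + 1) → Fin N, MvPolynomial.aeval x (A I) * wr (fun b => x (I b)) D := by
  classical
  refine ⟨fun I => ∏ b, MvPolynomial.pderiv (I b) (F b), fun I => ?_, fun D => ?_⟩
  · have h1 := MvPolynomial.IsHomogeneous.prod Finset.univ
      (fun b => MvPolynomial.pderiv (I b) (F b)) (fun _ => d) (fun b _ => (hF b).pderiv)
    simpa using h1
  · have hder := fun (j : Fin n) (G : MvPolynomial (Fin N) ℂ) =>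
      Pool.Agent.Y988.NT.der_aeval (D j) x G
    have heul : ∀ b, ((d : K) + 1) * MvPolynomial.aeval x (F b) =
        ∑ i, MvPolynomial.aeval x (MvPolynomial.pderiv i (F b)) * x i := by
      intro b
      have h3 := congrArg (MvPolynomial.aeval x) (hF b).sum_X_mul_pderiv
      rw [map_sum, map_nsmul, nsmul_eq_mul] at h3
      simp only [map_mul, MvPolynomial.aeval_X] at h3
      push_cast at h3
      rw [← h3]
      exact Finset.sum_congr rfl fun i _ => mul_comm _ _
    obtain ⟨M, hM⟩ : ∃ M : Fin (n + 1) → Fin N → K, M = fun a i =>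
        (Fin.cons (x i) (fun j => D j (x i)) : Fin (n + 1) → K) a := ⟨_, rfl⟩
    obtain ⟨c, hc⟩ : ∃ c : Fin (n + 1) → Fin N → K, c = fun b i =>
        MvPolynomial.aeval x (MvPolynomial.pderiv i (F b)) := ⟨_, rfl⟩
    have h1 : ((d : K) + 1) * wr (fun b => MvPolynomial.aeval x (F b)) D =
        (Matrix.of fun a b => ∑ i, c b i * M a i :
          Matrix (Fin (n + 1)) (Fin (n + 1)) K).det := by
      unfold wr
      rw [Matrix.det_succ_row_zero, Matrix.det_succ_row_zero, Finset.mul_sum]
      refine Finset.sum_congr rfl fun b _ => ?_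
      have h2 : (Matrix.of fun a b => ∑ i, c b i * M a i :
          Matrix (Fin (n + 1)) (Fin (n + 1)) K) 0 b =
          ((d : K) + 1) * MvPolynomial.aeval x (F b) := by
        rw [heul b, hc, hM]
        simp [Matrix.of_apply]
      have h3 : (Matrix.of fun a b => (Fin.cons (MvPolynomial.aeval x (F b))
          (fun j => D j (MvPolynomial.aeval x (F b))) : Fin (n + 1) → K) a :
          Matrix (Fin (n + 1)) (Fin (n + 1)) K) 0 b = MvPolynomial.aeval x (F b) := by
        simp [Matrix.of_apply]
      have h4 : (Matrix.of fun a b => ∑ i, c b i * M a i :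
          Matrix (Fin (n + 1)) (Fin (n + 1)) K).submatrix Fin.succ b.succAbove =
          (Matrix.of fun a b => (Fin.cons (MvPolynomial.aeval x (F b))
          (fun j => D j (MvPolynomial.aeval x (F b))) : Fin (n + 1) → K) a :
          Matrix (Fin (n + 1)) (Fin (n + 1)) K).submatrix Fin.succ b.succAbove := by
        ext j b'
        simp only [Matrix.submatrix_apply, Matrix.of_apply, Fin.cons_succ]
        rw [hder, hc, hM]
        simp
      rw [h2, h3, h4]
      ring
    rw [h1, ← Matrix.det_transpose]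
    have h5 : (Matrix.of fun a b => ∑ i, c b i * M a i :
        Matrix (Fin (n + 1)) (Fin (n + 1)) K).transpose =
        fun b => ∑ i : Fin N, c b i • fun a => M a i := by
      funext b a
      rw [Matrix.transpose_apply, Matrix.of_apply, Finset.sum_apply]
      rfl
    have h6 := (Matrix.detRowAlternating (R := K) (n := Fin (n + 1))).toMultilinearMap.map_sum
      (fun b (i : Fin N) => c b i • fun a => M a i)
    have h7 : (Matrix.of fun a b => ∑ i, c b i * M a i :
        Matrix (Fin (n + 1)) (Fin (n + 1)) K).transpose.det =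
        ∑ I : Fin (n + 1) → Fin N,
          (Matrix.detRowAlternating (R := K) (n := Fin (n + 1))).toMultilinearMap
            fun b => c b (I b) • fun a => M a (I b) := by
      rw [h5]
      exact h6
    rw [h7]
    refine Finset.sum_congr rfl fun I _ => ?_
    rw [MultilinearMap.map_smul_univ, map_prod, smul_eq_mul, hc]
    congr 1
    have h8 : (Matrix.detRowAlternating (R := K) (n := Fin (n + 1))).toMultilinearMap
        (fun b => fun a => M a (I b)) = (Matrix.of fun a b => M a (I b) :
          Matrix (Fin (n + 1)) (Fin (n + 1)) K).transpose.det := rfl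
    rw [h8, Matrix.det_transpose, hM]
    rfl

end

end Pool.Agent.H614.BF
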