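import Mathlib
import Pool.Agent.H90.P.Ns
import Pool.Agent.H90.P.H614.BF.Defs
import Pool.Agent.H90.P.H614.BF.Plu
import Pool.Agent.H90.P.H614.BF.Wr
import Pool.Agent.H90.P.Helper386.D5V.Helper386_FF_Place
import Pool.Agent.H90.P.Helper386.D5V.Helper399_OverDefs
import Pool.Agent.H90.P.TH466.QG.Low
import Pool.Agent.H90.P.W602.GT.Defs
import Pool.Agent.H90.P.W603.LV.Ord
import Pool.Agent.H90.P.Y184.NT.Main2

/-!
Adjoint line bundles on images: base points.
-/

set_option autoImplicit false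
set_option linter.unusedSectionVars false
set_option linter.overlappingInstances false

open FF Module Pool.Agent.W602.GT Pool.Agent.W603.LV Pool.Agent.W619.PQ Pool.Agent.Y172
open Pool.Agent.Y184.NT

namespace Pool.Agent.H614.BF

section

variable {K : Type} [Field K] [Algebra ℂ K] {n N : ℕ}

/-- `θ` is at `P` a section of `K_W + 𝓛` -/
def SectionAt (a : Place ℂ K → ℤ) (P : Place ℂ K) (θ : (Fin n → Derivation ℂ K K) → K) : Prop :=
  ∀ D : Fin n → Derivation ℂ K K, (∀ i, DerReg P (D i)) → θ D = 0 ∨ - a P ≤ P.ord (θ D)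

/-- `η` generates `K_W + 𝓛` at `p` -/
def Generates (a : Place ℂ K → ℤ) (y : Fin N → K) {κ : Type} [Field κ] [Algebra ℂ κ]
    (p : Fin N → κ) (η : (Fin n → Derivation ℂ K K) → K) : Prop :=
  ∀ θ : (Fin n → Derivation ℂ K K) → K, IsPluri 1 θ →
    (∀ P : Place ℂ K, Divisorial n P → Through P y p → SectionAt a P θ) →
    ∃ (e : ℕ) (A B : MvPolynomial (Fin N) ℂ), A.IsHomogeneous e ∧ B.IsHomogeneous e ∧
      MvPolynomial.aeval p B ≠ 0 ∧
      ∀ D, MvPolynomial.aeval y B * θ D = MvPolynomial.aeval y A * η D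

/-- the functions `t` are regular at `p` -/
def RegularFunctions (y : Fin N → K) {κ : Type} [Field κ] [Algebra ℂ κ] (p : Fin N → κ)
    (t : Fin n → K) : Prop :=
  ∃ (e : ℕ) (H : MvPolynomial (Fin N) ℂ) (G : Fin n → MvPolynomial (Fin N) ℂ),
    H.IsHomogeneous e ∧ (∀ j, (G j).IsHomogeneous e) ∧ MvPolynomial.aeval p H ≠ 0 ∧
    ∀ j, MvPolynomial.aeval y H * t j = MvPolynomial.aeval y (G j)

end

section

variable {K L : Type} [Field K] [Algebra ℂ K] [Field L] [Algebra ℂ L] [Algebra L K]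
  [IsScalarTower ℂ L K] [FiniteDimensional L K] {n m N M : ℕ}

/-- products -/
theorem ge_prod' {K : Type} [Field K] [Algebra ℂ K] {m : ℕ} (Q : Place ℂ K) {c : ℤ}
    {f : Fin m → K} (hf : ∀ k, Ge Q c (f k)) : Ge Q (m * c) (∏ k, f k) := by
  induction m with
  | zero =>
    right
    simp [Q.ord_one]
  | succ m ih =>
    rw [Fin.prod_univ_succ]
    have h1 := (hf 0).mul (ih fun k => hf k.succ)
    exact h1.mono (by push_cast; nlinarith)

/-- sections of the adjoint bundle by traces -/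
theorem fuj_section [Algebra.EssFiniteType ℂ K] (hK : Algebra.trdeg ℂ K = n) {x : Fin N → K}
    (hx : x ≠ 0) (a : Place ℂ L → ℤ) {φ : K}
    (hglob : ∀ (Q : Place ℂ K) (P : Place ℂ L) (e : ℕ), Over Q P e → Divisorial n Q →
      ∀ i, x i ≠ 0 → Q.ord φ ≤ e * a P + ((m + (n + 1) : ℕ) : ℤ) * Q.ord (x i))
    {z : Fin n → L} {E : Fin n → Derivation ℂ L L}
    (hz : IsTranscendenceBasis ℂ z) (hE : ∀ i j, E i (z j) = if i = j then 1 else 0)
    {E' : Fin n → Derivation ℂ K K}
    (hE' : ∀ i f, E' i (algebraMap L K f) = algebraMap L K (E i f))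
    (I : Fin (n + 1) → Fin N) (f : Fin m → Fin N) (P : Place ℂ L) (hP : Divisorial n P) :
    SectionAt a P (pForm 1 z (Algebra.trace L K
      ((∏ k, x (f k)) * (φ⁻¹ * wr (fun b => x (I b)) E')))) := by
  classical
  have hessL : Algebra.EssFiniteType ℂ L := Pool.Agent.TH466.QG.ess_below (K := K)
  have hL : Algebra.trdeg ℂ L = n := Pool.Agent.Y184.NT.trdeg_below (K := K) hK
  have hxe : ∃ j, x j ≠ 0 := by
    by_contra hc'
    push Not at hc'
    exact hx (funext hc')
  obtain ⟨t, ht0, ht1⟩ := P.surj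
  obtain ⟨g, hg0, hg⟩ : ∃ g : L, g ≠ 0 ∧ P.ord g = a P := by
    refine ⟨t ^ (a P), zpow_ne_zero _ ht0, ?_⟩
    rw [P.ord_zpow, ht1, mul_one]
  obtain ⟨W, hW⟩ : ∃ W : (Fin n → Derivation ℂ K K) → K,
      W = fun D => algebraMap L K g * ((∏ k, x (f k)) *
        (φ⁻¹ * wr (fun b => x (I b)) D)) := ⟨_, rfl⟩
  have hWp : IsPluri 1 W := by
    intro A D
    rw [hW]
    have h1 := wr_pluri (fun b => x (I b)) A D
    change algebraMap L K g * ((∏ k, x (f k)) *
        (φ⁻¹ * wr (fun b => x (I b)) (fun i => ∑ j, A i j • D j))) = _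
    rw [h1]
    ring
  have h1 := trace_regular hL hz hE hE' W hWp P hP (fun Q e hQP hQ => by
    intro P' e' hQP' D hD
    obtain ⟨i, hi0, hmin, hwr⟩ := wr_ord (n := n) Q hxe
    have h1 := hwr I D hD
    have h2 : Ge Q (m * Q.ord (x i)) (∏ k, x (f k)) := by
      refine ge_prod' Q fun k => ?_
      by_cases hk : x (f k) = 0
      · exact Or.inl hk
      · exact Or.inr (hmin _ hk)
    have h3 : Ge Q (- Q.ord φ) φ⁻¹ := by
      right
      rw [Q.ord_inv]
    have h4 : Ge Q (e * a P) (algebraMap L K g) := by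
      right
      rw [hQP.2, hg]
    have h5 := h4.mul (h2.mul (h3.mul h1))
    have h6 : ((1 : ℕ) : ℤ) - 1 = 0 := by norm_num
    rw [h6, zero_mul, hW]
    have h7 := hglob Q P e hQP hQ i hi0
    exact h5.mono (by
      push_cast at h7 ⊢
      nlinarith))
  intro D hD
  have h2 := h1 D hD
  rw [hW] at h2
  have h3 : Algebra.trace L K (algebraMap L K g * ((∏ k, x (f k)) *
      (φ⁻¹ * wr (fun b => x (I b)) E'))) = g * Algebra.trace L K ((∏ k, x (f k)) *
      (φ⁻¹ * wr (fun b => x (I b)) E')) := by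
    rw [← Algebra.smul_def, map_smul, smul_eq_mul]
  change P.Reg (pForm 1 z (Algebra.trace L K (algebraMap L K g * ((∏ k, x (f k)) *
      (φ⁻¹ * wr (fun b => x (I b)) E')))) D) at h2
  rw [h3] at h2
  unfold pForm at h2 ⊢
  rcases h2 with h2 | h2
  · left
    have h4 : g * ((Matrix.of fun i j => D i (z j) : Matrix (Fin n) (Fin n) L).det ^ 1 *
        Algebra.trace L K ((∏ k, x (f k)) * (φ⁻¹ * wr (fun b => x (I b)) E'))) = 0 := by
      rw [← h2]
      ring
    exact (mul_eq_zero.1 h4).resolve_left hg0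
  · by_cases h0 : (Matrix.of fun i j => D i (z j) : Matrix (Fin n) (Fin n) L).det ^ 1 *
        Algebra.trace L K ((∏ k, x (f k)) * (φ⁻¹ * wr (fun b => x (I b)) E')) = 0
    · exact Or.inl h0
    · right
      have h4 : (Matrix.of fun i j => D i (z j) : Matrix (Fin n) (Fin n) L).det ^ 1 *
          (g * Algebra.trace L K ((∏ k, x (f k)) * (φ⁻¹ * wr (fun b => x (I b)) E'))) =
          g * ((Matrix.of fun i j => D i (z j) : Matrix (Fin n) (Fin n) L).det ^ 1 *
        Algebra.trace L K ((∏ k, x (f k)) * (φ⁻¹ * wr (fun b => x (I b)) E'))) := by ring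
      rw [h4, P.ord_mul hg0 h0, hg] at h2
      omega

/-- local expansion -/
theorem fuj_local {x : Fin N → K} {y : Fin M → L} {κ : Type} [Field κ] [Algebra ℂ κ]
    {q : Fin N → κ} (hq : IsPoint x q) {p : Fin M → ℂ} (hp : IsPoint y p) {φ : K} (hφ : φ ≠ 0)
    {g : L} {t : Fin n → L} (ht : RegularFunctions y p t)
    {d : ℕ} {F : Fin M → MvPolynomial (Fin N) ℂ} (hF : ∀ j, (F j).IsHomogeneous d)
    (hyF : ∀ j k, algebraMap L K (y j) * MvPolynomial.aeval x (F k) =
      algebraMap L K (y k) * MvPolynomial.aeval x (F j)) {k0 : Fin M}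
    (hk0 : MvPolynomial.aeval q (F k0) ≠ 0)
    (hpq : ∀ j k, MvPolynomial.aeval q (F j) * algebraMap ℂ κ (p k) =
      MvPolynomial.aeval q (F k) * algebraMap ℂ κ (p j))
    (hg : ∃ (e : ℕ) (A B : MvPolynomial (Fin N) ℂ), A.IsHomogeneous (e + (m + (n + 1))) ∧
      B.IsHomogeneous e ∧ MvPolynomial.aeval q B ≠ 0 ∧
      MvPolynomial.aeval x B * (φ * algebraMap L K g) = MvPolynomial.aeval x A)
    {E : Fin n → Derivation ℂ L L} {E' : Fin n → Derivation ℂ K K}
    (hE' : ∀ i f, E' i (algebraMap L K f) = algebraMap L K (E i f)) :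
    ∃ (e s : ℕ) (B : MvPolynomial (Fin N) ℂ) (A : Fin s → MvPolynomial (Fin N) ℂ)
      (w : Fin s → K), B.IsHomogeneous e ∧ MvPolynomial.aeval q B ≠ 0 ∧
      (∀ i, (A i).IsHomogeneous (e + m)) ∧
      (∀ i, ∃ I : Fin (n + 1) → Fin N, w i = φ⁻¹ * wr (fun b => x (I b)) E') ∧
      MvPolynomial.aeval x B * algebraMap L K
        (g * (Matrix.of fun i j => E i (t j) : Matrix (Fin n) (Fin n) L).det) =
          ∑ i, MvPolynomial.aeval x (A i) * w i := by
  classical
  obtain ⟨e1, H, G, hH, hG, hHp, hHG⟩ := ht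
  obtain ⟨e0, A0, B0, hA0, hB0, hB0q, hAB0⟩ := hg
  obtain ⟨j1, hj1⟩ : ∃ j, p j ≠ 0 := by
    by_contra hcon
    push Not at hcon
    exact hp.1 (funext hcon)
  obtain ⟨i0, hi0⟩ : ∃ i, q i ≠ 0 := by
    by_contra hcon
    push Not at hcon
    exact hq.1 (funext hcon)
  have hj1' : algebraMap ℂ κ (p j1) ≠ 0 := by
    rw [Ne, map_eq_zero]
    exact hj1
  obtain ⟨ρ, hρ⟩ : ∃ ρ : κ, ρ = MvPolynomial.aeval q (F j1) / algebraMap ℂ κ (p j1) := ⟨_, rfl⟩
  have hFq : ∀ j, MvPolynomial.aeval q (F j) = ρ * algebraMap ℂ κ (p j) := by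
    intro j
    rw [hρ, div_mul_eq_mul_div, eq_div_iff hj1', hpq j j1]
  have hρ0 : ρ ≠ 0 := by
    intro h0
    apply hk0
    rw [hFq, h0, zero_mul]
  have hk0x : MvPolynomial.aeval x (F k0) ≠ 0 := fun h0 => hk0 (hq.2 d _ (hF k0) h0)
  obtain ⟨c, hc⟩ : ∃ c : K, c = algebraMap L K (y k0) / MvPolynomial.aeval x (F k0) := ⟨_, rfl⟩
  have hyc : ∀ j, algebraMap L K (y j) = c * MvPolynomial.aeval x (F j) := by
    intro j
    rw [hc, div_mul_eq_mul_div, eq_div_iff hk0x, hyF j k0]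
  -- pulling back forms
  have hpull : ∀ (T : MvPolynomial (Fin M) ℂ), T.IsHomogeneous e1 →
      algebraMap L K (MvPolynomial.aeval y T) =
        c ^ e1 * MvPolynomial.aeval x (MvPolynomial.aeval F T) := by
    intro T hT
    have h1 : MvPolynomial.aeval x (MvPolynomial.aeval F T) =
        MvPolynomial.aeval (fun j => MvPolynomial.aeval x (F j)) T := by
      rw [← MvPolynomial.comp_aeval_apply]
    rw [h1, ← smul_form hT, ← MvPolynomial.aeval_algebraMap_apply]
    congr 2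
    funext j
    exact hyc j
  have hGq : MvPolynomial.aeval q (MvPolynomial.aeval F H) ≠ 0 := by
    have h1 : MvPolynomial.aeval q (MvPolynomial.aeval F H) =
        MvPolynomial.aeval (fun j => MvPolynomial.aeval q (F j)) H := by
      rw [← MvPolynomial.comp_aeval_apply]
    rw [h1]
    have h2 : (fun j => MvPolynomial.aeval q (F j)) = fun j => ρ * algebraMap ℂ κ (p j) :=
      funext hFq
    rw [h2, smul_form hH]
    refine mul_ne_zero (pow_ne_zero _ hρ0) ?_
    have h3 := MvPolynomial.aeval_algebraMap_apply κ p H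
    rw [show (fun j => algebraMap ℂ κ (p j)) = (algebraMap ℂ κ ∘ p) from rfl, h3, Ne,
      map_eq_zero]
    exact hHp
  have hHx : MvPolynomial.aeval x (MvPolynomial.aeval F H) ≠ 0 := fun h0 =>
    hGq (hq.2 _ _ (hH.aeval F hF) h0)
  have hc0 : c ≠ 0 := by
    intro h0
    apply hj1
    have h1 := hyc j1
    rw [h0, zero_mul, map_eq_zero] at h1
    have h2 := hp.2 1 (MvPolynomial.X j1) (MvPolynomial.isHomogeneous_X ℂ j1)
      (by rw [MvPolynomial.aeval_X, h1])
    rwa [MvPolynomial.aeval_X] at h2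
  obtain ⟨Fh, hFh⟩ : ∃ Fh : Fin (n + 1) → MvPolynomial (Fin N) ℂ, Fh = fun b =>
      (Fin.cons (MvPolynomial.aeval F H) (fun j => MvPolynomial.aeval F (G j)) :
        Fin (n + 1) → MvPolynomial (Fin N) ℂ) b * MvPolynomial.X i0 := ⟨_, rfl⟩
  have hFhh : ∀ b, (Fh b).IsHomogeneous (d * e1 + 1) := by
    intro b
    rw [hFh]
    refine Fin.cases ?_ (fun j => ?_) b
    · exact (hH.aeval F hF).mul (MvPolynomial.isHomogeneous_X ℂ i0)
    · exact ((hG j).aeval F hF).mul (MvPolynomial.isHomogeneous_X ℂ i0)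
  obtain ⟨AI, hAI, hexp⟩ := wr_expand (K := K) (n := n) x Fh hFhh
  have hdet : MvPolynomial.aeval x (Fh 0) ^ (n + 1) * algebraMap L K
      (Matrix.of fun i j => E i (t j) : Matrix (Fin n) (Fin n) L).det =
      wr (fun b => MvPolynomial.aeval x (Fh b)) E' := by
    have h1 : algebraMap L K (Matrix.of fun i j => E i (t j) : Matrix (Fin n) (Fin n) L).det =
        wr (Fin.cons 1 fun j => algebraMap L K (t j)) E' := by
      rw [wr_one, RingHom.map_det]
      congr 1
      ext i j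
      rw [RingHom.mapMatrix_apply, Matrix.map_apply, Matrix.of_apply, Matrix.of_apply, hE']
    rw [h1, ← wr_smul]
    congr 1
    funext b
    refine Fin.cases ?_ (fun j => ?_) b
    · rw [Fin.cons_zero, mul_one]
    · rw [Fin.cons_succ, hFh]
      simp only [Fin.cons_zero, Fin.cons_succ, map_mul, MvPolynomial.aeval_X]
      have h2 := congrArg (algebraMap L K) (hHG j)
      rw [map_mul, hpull H hH, hpull (G j) (hG j)] at h2
      have h3 : c ^ e1 * (MvPolynomial.aeval x (MvPolynomial.aeval F H) *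
          algebraMap L K (t j) - MvPolynomial.aeval x (MvPolynomial.aeval F (G j))) = 0 := by
        linear_combination h2
      have h4 := (mul_eq_zero.1 h3).resolve_left (pow_ne_zero _ hc0)
      linear_combination x i0 * h4
  obtain ⟨ε⟩ : Nonempty ((Fin (n + 1) → Fin N) ≃ Fin (Fintype.card (Fin (n + 1) → Fin N))) :=
    ⟨Fintype.equivFin _⟩
  refine ⟨(d * e1 + 1) * (n + 1) + e0, Fintype.card (Fin (n + 1) → Fin N),
    MvPolynomial.C ((d * e1 : ℕ) + 1 : ℂ) * (Fh 0 ^ (n + 1) * B0), fun i => AI (ε.symm i) * A0,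
    fun i => φ⁻¹ * wr (fun b => x (ε.symm i b)) E', ?_, ?_, fun i => ?_,
    fun i => ⟨ε.symm i, rfl⟩, ?_⟩
  · have h1 := (MvPolynomial.isHomogeneous_C (Fin N) ((d * e1 : ℕ) + 1 : ℂ)).mul
      (((hFhh 0).pow (n + 1)).mul hB0)
    rwa [zero_add] at h1
  · rw [map_mul, map_mul, map_pow, MvPolynomial.aeval_C]
    refine mul_ne_zero ?_ (mul_ne_zero (pow_ne_zero _ ?_) hB0q)
    · rw [Ne, map_eq_zero]
      exact_mod_cast Nat.succ_ne_zero (d * e1)
    · rw [hFh]
      simp only [Fin.cons_zero, map_mul, MvPolynomial.aeval_X]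
      exact mul_ne_zero hGq hi0
  · have h1 := (hAI (ε.symm i)).mul hA0
    have h2 : (n + 1) * (d * e1) + (e0 + (m + (n + 1))) = (d * e1 + 1) * (n + 1) + e0 + m := by
      ring
    rwa [h2] at h1
  · have h1 := hexp E'
    rw [← hdet] at h1
    rw [map_mul, map_mul, map_pow, MvPolynomial.aeval_C, map_mul]
    have h2 : algebraMap ℂ K ((d * e1 : ℕ) + 1 : ℂ) = ((d * e1 : ℕ) : K) + 1 := by
      rw [map_add, map_natCast, map_one]
    rw [h2]
    have h3 : ∑ i, MvPolynomial.aeval x (AI (ε.symm i) * A0) *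
        (φ⁻¹ * wr (fun b => x (ε.symm i b)) E') =
        φ⁻¹ * MvPolynomial.aeval x A0 * ∑ I, MvPolynomial.aeval x (AI I) *
          wr (fun b => x (I b)) E' := by
      rw [Finset.mul_sum, ← ε.symm.sum_comp]
      refine Finset.sum_congr rfl fun i _ => ?_
      rw [map_mul]
      ring
    rw [h3, ← h1, ← hAB0]
    field_simp

end

end Pool.Agent.H614.BF
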